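import Mathlib

/-!
# Pairs of edges in a common negative circle

Signs are written additively: `σ : Sym2 V → ZMod 2`, the edge `e` is negative if `σ e = 1`.

* Necessary conditions, for every signed graph: if every two edges lie in a common negative circle,
  then no vertex `v` of degree at least three has `Σ - v` balanced, and `Σ - {e, f}` is balanced only
  if already `Σ - e` or `Σ - f` is balanced.
* Sufficiency, for every graph in which any two vertices have at least seven common neighbours, so
  for every graph on `n` vertices with all degrees at least `(n + 7) / 2`: the negative pair property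
  holds if and only if there is no vertex `v` with `Σ - v` balanced and no pair of edges `e`, `f` with
  `Σ - {e, f}` balanced.
* Every 3-connected graph has an unbalanced signature without the negative pair property; so the
  conjecture that all 3-connected unbalanced signed graphs have the property fails on every
  3-connected graph.
-/

set_option autoImplicit false

namespace Pool.Agent.Results.MP_790549_co.CommonNegativeCircles

open SimpleGraph

/-- the sign of a walk, additively: `0` is positive, `1` is negative -/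
def sgn {V : Type} {G : SimpleGraph V} (σ : Sym2 V → ZMod 2) {u v : V} (w : G.Walk u v) : ZMod 2 :=
  (w.edges.map σ).sum

/-- the negative pair property: every two edges lie in a common negative circle -/
def NegPair {V : Type} (G : SimpleGraph V) (σ : Sym2 V → ZMod 2) : Prop :=
  ∀ e ∈ G.edgeSet, ∀ f ∈ G.edgeSet, e ≠ f →
    ∃ (u : V) (w : G.Walk u u), w.IsCycle ∧ e ∈ w.edges ∧ f ∈ w.edges ∧ sgn σ w = 1

/-- `Σ` without the edges in `F` is balanced -/
def BalancedOff {V : Type} (G : SimpleGraph V) (σ : Sym2 V → ZMod 2) (F : Set (Sym2 V)) : Prop :=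
  ∀ (u : V) (w : G.Walk u u), w.IsCycle → (∀ g ∈ w.edges, g ∉ F) → sgn σ w = 0

/-- `Σ - v` is balanced -/
def BalancedOffVertex {V : Type} (G : SimpleGraph V) (σ : Sym2 V → ZMod 2) (v : V) : Prop :=
  ∀ (u : V) (w : G.Walk u u), w.IsCycle → v ∉ w.support → sgn σ w = 0

/-- `Σ` is unbalanced -/
def Unbalanced {V : Type} (G : SimpleGraph V) (σ : Sym2 V → ZMod 2) : Prop :=
  ∃ (u : V) (w : G.Walk u u), w.IsCycle ∧ sgn σ w = 1

/-- 3-connected: more than three vertices, and connected after the removal of at most two -/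
def ThreeConn {V : Type} (G : SimpleGraph V) : Prop :=
  4 ≤ Nat.card V ∧ ∀ S : Set V, S.ncard ≤ 2 → (G.induce Sᶜ).Connected

section

variable {V : Type} {G : SimpleGraph V} (σ : Sym2 V → ZMod 2)

theorem sgn_nil (u : V) : sgn σ (Walk.nil : G.Walk u u) = 0 := by simp [sgn]

theorem sgn_cons {u v w : V} (h : G.Adj u v) (p : G.Walk v w) :
    sgn σ (Walk.cons h p) = σ s(u, v) + sgn σ p := by simp [sgn]

theorem sgn_append {u v w : V} (p : G.Walk u v) (q : G.Walk v w) :
    sgn σ (p.append q) = sgn σ p + sgn σ q := by simp [sgn]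

theorem sgn_reverse {u v : V} (p : G.Walk u v) : sgn σ p.reverse = sgn σ p := by
  simp [sgn]

theorem sgn_bypass [DecidableEq V] (F : Set (Sym2 V)) (hF : BalancedOff G σ F) {u v : V}
    (p : G.Walk u v) (hp : ∀ g ∈ p.edges, g ∉ F) : sgn σ p = sgn σ p.bypass := by
  induction p with
  | nil => rfl
  | @cons a b c h q ih =>
    have hq : ∀ g ∈ q.edges, g ∉ F := fun g hg => hp g (by simp [hg])
    have ihq := ih hq
    simp only [Walk.bypass]
    split_ifs with hs
    · have h1 : sgn σ q.bypass = sgn σ (q.bypass.takeUntil _ hs) +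
          sgn σ (q.bypass.dropUntil _ hs) := by
        rw [← sgn_append, Walk.take_spec]
      have h2 : σ s(a, b) + sgn σ (q.bypass.takeUntil _ hs) = 0 := by
        have ht : (q.bypass.takeUntil _ hs).IsPath := (Walk.bypass_isPath q).takeUntil hs
        by_cases he : s(a, b) ∈ (q.bypass.takeUntil _ hs).edges
        · have h3 := ht.eq_adj_toWalk_of_mem_edges (by rwa [Sym2.eq_swap])
          rw [h3]
          simp only [sgn, Adj.toWalk, Walk.edges_cons, Walk.edges_nil, List.map_cons, List.map_nil,
            List.sum_cons, List.sum_nil, add_zero]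
          rw [Sym2.eq_swap]
          exact CharTwo.add_self_eq_zero _
        · have hc : (Walk.cons h (q.bypass.takeUntil _ hs)).IsCycle :=
            (Walk.cons_isCycle_iff _ h).mpr ⟨ht, he⟩
          have := hF _ _ hc (by
            intro g hg
            rw [Walk.edges_cons, List.mem_cons] at hg
            rcases hg with rfl | hg
            · exact hp _ (by simp)
            · exact hq g (q.edges_bypass_subset_edges
                (Walk.edges_takeUntil_subset_edges _ hs hg)))
          rwa [sgn_cons] at this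
      rw [sgn_cons, ihq, h1, ← add_assoc, h2, zero_add]
    · rw [sgn_cons, sgn_cons, ihq]

theorem sgn_closed (F : Set (Sym2 V)) (hF : BalancedOff G σ F) {u : V}
    (p : G.Walk u u) (hp : ∀ g ∈ p.edges, g ∉ F) : sgn σ p = 0 := by
  classical
  rw [sgn_bypass σ F hF p hp]
  have h := Walk.bypass_isPath p
  rw [Walk.isPath_iff_eq_nil] at h
  rw [h, sgn_nil]

/-- the coboundary of `s` -/
def cob (s : V → ZMod 2) : Sym2 V → ZMod 2 :=
  Sym2.lift ⟨fun x y => s x + s y, fun x y => add_comm _ _⟩

theorem cob_mk (s : V → ZMod 2) (x y : V) : cob s s(x, y) = s x + s y := rfl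

theorem sgn_cob (s : V → ZMod 2) {u v : V} (p : G.Walk u v) : sgn (cob s) p = s u + s v := by
  induction p with
  | nil => rw [sgn_nil]; exact (CharTwo.add_self_eq_zero _).symm
  | @cons a b c h q ih =>
    rw [sgn_cons, ih, cob_mk]
    have : s b + s b = 0 := CharTwo.add_self_eq_zero _
    linear_combination this

theorem exists_potential (F : Set (Sym2 V)) (hF : BalancedOff G σ F) :
    ∃ s : V → ZMod 2, ∀ x y, G.Adj x y → s(x, y) ∉ F → σ s(x, y) = cob s s(x, y) := by
  classical
  set H := G.deleteEdges F with hH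
  let r : V → V := fun x => (H.connectedComponentMk x).out
  have hr : ∀ x, ∃ p : G.Walk (r x) x, ∀ g ∈ p.edges, g ∉ F := by
    intro x
    have h1 : H.Reachable (r x) x := by
      apply ConnectedComponent.exact
      exact Quot.out_eq (H.connectedComponentMk x)
    obtain ⟨p⟩ := h1
    refine ⟨p.mapLe (G.deleteEdges_le F), ?_⟩
    intro g hg
    rw [Walk.edges_mapLe_eq_edges] at hg
    have := p.edges_subset_edgeSet hg
    rw [hH, edgeSet_deleteEdges] at this
    exact this.2
  choose w hw using hr
  refine ⟨fun x => sgn σ (w x), ?_⟩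
  intro x y hxy hF'
  have hadj : H.Adj x y := by
    rw [hH, deleteEdges_adj]; exact ⟨hxy, hF'⟩
  have hrr : r x = r y := by
    show (H.connectedComponentMk x).out = (H.connectedComponentMk y).out
    rw [ConnectedComponent.connectedComponentMk_eq_of_adj hadj]
  have key := sgn_closed σ F hF
    ((((w x).copy hrr rfl).append (Walk.cons hxy (w y).reverse))) (by
      intro g hg
      simp only [Walk.edges_append, Walk.edges_copy, Walk.edges_cons, Walk.edges_reverse,
        List.mem_append, List.mem_cons, List.mem_reverse] at hg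
      rcases hg with hg | rfl | hg
      · exact hw x g hg
      · exact hF'
      · exact hw y g hg)
  rw [sgn_append, sgn_cons, sgn_reverse] at key
  have hcopy : sgn σ ((w x).copy hrr rfl) = sgn σ (w x) := by simp [sgn]
  rw [hcopy] at key
  rw [cob_mk]
  have e1 : sgn σ (w x) + sgn σ (w x) = 0 := CharTwo.add_self_eq_zero _
  have e2 : sgn σ (w y) + sgn σ (w y) = 0 := CharTwo.add_self_eq_zero _
  linear_combination key - e1 - e2

theorem balancedOff_of_potential (F : Set (Sym2 V)) (s : V → ZMod 2)
    (h : ∀ x y, G.Adj x y → s(x, y) ∉ F → σ s(x, y) = cob s s(x, y)) : BalancedOff G σ F := by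
  intro u w _ hwF
  have h1 : sgn σ w = sgn (cob s) w := by
    unfold sgn
    congr 1
    apply List.map_congr_left
    intro g hg
    have hE := w.edges_subset_edgeSet hg
    have hgF := hwF g hg
    induction g using Sym2.ind with
    | _ x y => exact h x y hE hgF
  rw [h1, sgn_cob]
  exact CharTwo.add_self_eq_zero _

/-- the sign of a circle after switching, when the switched signs vanish off a set -/
theorem sgn_cycle (s : V → ZMod 2) {u : V} (w : G.Walk u u) (hc : w.IsCycle)
    (A : Finset (Sym2 V)) (hA : ∀ g ∈ A, g ∈ w.edges)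
    (h : ∀ g ∈ w.edges, g ∉ A → σ g = cob s g) :
    sgn σ w = ∑ g ∈ A, (σ g + cob s g) := by
  classical
  have h1 : sgn σ w = sgn (fun g => σ g + cob s g) w := by
    have : sgn (fun g => σ g + cob s g) w = sgn σ w + sgn (cob s) w := by
      unfold sgn; rw [← List.sum_map_add]
    rw [this, sgn_cob, CharTwo.add_self_eq_zero, add_zero]
  rw [h1]
  unfold sgn
  rw [← List.sum_toFinset _ hc.isTrail.edges_nodup]
  symm
  apply Finset.sum_subset
  · intro g hg; exact List.mem_toFinset.mpr (hA g hg)
  · intro g hg hgA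
    rw [h g (List.mem_toFinset.mp hg) hgA]
    exact CharTwo.add_self_eq_zero _

theorem zmod2_ne {x : ZMod 2} (h : x ≠ 1) : x = 0 := by
  revert h; revert x; decide

/-- two edges whose deletion balances -/
theorem pair_necessary (hN : NegPair G σ) (e f : Sym2 V) (he : e ∈ G.edgeSet)
    (hf : f ∈ G.edgeSet) (hef : e ≠ f) (hb : BalancedOff G σ {e, f}) :
    BalancedOff G σ {e} ∨ BalancedOff G σ {f} := by
  classical
  obtain ⟨s, hs⟩ := exists_potential σ _ hb
  have hs' : ∀ g ∈ G.edgeSet, g ∉ ({e, f} : Set (Sym2 V)) → σ g = cob s g := by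
    intro g hg hgF
    induction g using Sym2.ind with
    | _ x y => exact hs x y hg hgF
  obtain ⟨u, w, hc, hew, hfw, hsg⟩ := hN e he f hf hef
  rw [sgn_cycle σ s w hc {e, f} (by
    intro g hg
    rw [Finset.mem_insert, Finset.mem_singleton] at hg
    rcases hg with rfl | rfl <;> assumption) (by
    intro g hg hgA
    apply hs' g (w.edges_subset_edgeSet hg)
    simpa using hgA), Finset.sum_pair hef] at hsg
  by_cases h0 : σ e + cob s e = 0
  · right
    apply balancedOff_of_potential σ _ s
    intro x y hxy hne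
    by_cases h1 : s(x, y) = e
    · rw [h1]
      have : cob s e + cob s e = 0 := CharTwo.add_self_eq_zero _
      linear_combination h0 - this
    · apply hs x y hxy
      simp only [Set.mem_insert_iff, Set.mem_singleton_iff, not_or] at hne ⊢
      exact ⟨h1, hne⟩
  · left
    have h0' : σ f + cob s f = 0 := by
      have : ∀ a b : ZMod 2, ¬ a = 0 → a + b = 1 → b = 0 := by decide
      exact this _ _ h0 hsg
    apply balancedOff_of_potential σ _ s
    intro x y hxy hne
    by_cases h1 : s(x, y) = f
    · rw [h1]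
      have : cob s f + cob s f = 0 := CharTwo.add_self_eq_zero _
      linear_combination h0' - this
    · apply hs x y hxy
      simp only [Set.mem_insert_iff, Set.mem_singleton_iff, not_or] at hne ⊢
      exact ⟨hne, h1⟩

theorem off_edges_of_off_vertex (v : V) (h : BalancedOffVertex G σ v) :
    BalancedOff G σ {g | v ∈ g} := by
  intro u w hc hw
  apply h u w hc
  intro hv
  obtain ⟨x, hx⟩ : ∃ x, s(v, x) ∈ w.edges := by
    have h2 := hc.ncard_neighborSet_toSubgraph_eq_two hv
    have h3 : (w.toSubgraph.neighborSet v).Nonempty := by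
      apply Set.nonempty_of_ncard_ne_zero; omega
    obtain ⟨x, hx⟩ := h3
    exact ⟨x, (Walk.adj_toSubgraph_iff_mem_edges).mp hx⟩
  exact hw _ hx (by simp)

theorem off_vertex_of_off_edges (v : V) (F : Set (Sym2 V)) (hF : ∀ g ∈ F, v ∈ g)
    (h : BalancedOff G σ F) : BalancedOffVertex G σ v := by
  intro u w hc hv
  apply h u w hc
  intro g hg hgF
  have := hF g hgF
  exact hv (Walk.mem_support_of_mem_edges hg this)

/-- a balancing vertex of degree at least three -/
theorem vertex_necessary (hN : NegPair G σ) (v a b c : V) (ha : G.Adj v a) (hb : G.Adj v b)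
    (hc : G.Adj v c) (hab : a ≠ b) (hac : a ≠ c) (hbc : b ≠ c)
    (hv : BalancedOffVertex G σ v) : False := by
  classical
  obtain ⟨s, hs⟩ := exists_potential σ _ (off_edges_of_off_vertex σ v hv)
  have key : ∀ x y : V, x ≠ y → G.Adj v x → G.Adj v y →
      (σ s(v, x) + cob s s(v, x)) + (σ s(v, y) + cob s s(v, y)) = 1 := by
    intro x y hxy hx hy
    have hne : s(v, x) ≠ s(v, y) := by
      intro h
      rw [Sym2.eq_iff] at h
      rcases h with ⟨_, h⟩ | ⟨h1, h2⟩
      · exact hxy h
      · exact hxy (h2.trans h1)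
    obtain ⟨u, w, hcy, hew, hfw, hsg⟩ := hN s(v, x) hx s(v, y) hy hne
    rw [sgn_cycle σ s w hcy {s(v, x), s(v, y)} (by
      intro g hg
      rw [Finset.mem_insert, Finset.mem_singleton] at hg
      rcases hg with rfl | rfl <;> assumption) (by
      intro g hg hgA
      by_cases hvg : v ∈ g
      · exfalso
        obtain ⟨z, rfl⟩ := Sym2.mem_iff_exists.mp hvg
        have hvs : v ∈ w.support := Walk.mem_support_of_mem_edges hew (by simp)
        have h2 := hcy.ncard_neighborSet_toSubgraph_eq_two hvs
        have hx' : x ∈ w.toSubgraph.neighborSet v :=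
          (Walk.adj_toSubgraph_iff_mem_edges).mpr hew
        have hy' : y ∈ w.toSubgraph.neighborSet v :=
          (Walk.adj_toSubgraph_iff_mem_edges).mpr hfw
        have hz' : z ∈ w.toSubgraph.neighborSet v :=
          (Walk.adj_toSubgraph_iff_mem_edges).mpr hg
        obtain ⟨p, q, hpq, hset⟩ := Set.ncard_eq_two.mp h2
        rw [hset] at hx' hy' hz'
        simp only [Set.mem_insert_iff, Set.mem_singleton_iff] at hx' hy' hz'
        have : z = x ∨ z = y := by
          rcases hx' with rfl | rfl <;> rcases hy' with rfl | rfl <;>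
            rcases hz' with rfl | rfl <;> simp_all
        rcases this with rfl | rfl
        · simp at hgA
        · simp at hgA
      · have hE := w.edges_subset_edgeSet hg
        induction g using Sym2.ind with
        | _ p q => exact hs p q hE hvg), Finset.sum_pair hne] at hsg
    exact hsg
  have k1 := key a b hab ha hb
  have k2 := key a c hac ha hc
  have k3 := key b c hbc hb hc
  have : ∀ x y z : ZMod 2, x + y = 1 → x + z = 1 → y + z = 1 → False := by decide
  exact this _ _ _ k1 k2 k3

theorem circ {a b c d : V} (hab : G.Adj a b) (hcd : G.Adj c d) (hne : s(a, b) ≠ s(c, d))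
    (P : G.Walk b c) (Q : G.Walk d a) (hP : P.IsPath) (hQ : Q.IsPath)
    (hd : List.Disjoint P.support Q.support) :
    ∃ w : G.Walk a a, w.IsCycle ∧ s(a, b) ∈ w.edges ∧ s(c, d) ∈ w.edges ∧
      sgn σ w = σ s(a, b) + σ s(c, d) + (sgn σ P + sgn σ Q) := by
  refine ⟨Walk.cons hab (P.append (Walk.cons hcd Q)), ?_, by simp, by simp, ?_⟩
  · rw [Walk.cons_isCycle_iff]
    constructor
    · rw [Walk.isPath_def, Walk.support_append, Walk.support_cons, List.tail_cons,
        List.nodup_append]
      refine ⟨hP.support_nodup, hQ.support_nodup, ?_⟩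
      intro x hx y hy hxy
      exact hd hx (hxy ▸ hy)
    · rw [Walk.edges_append, Walk.edges_cons]
      simp only [List.mem_append, List.mem_cons, not_or]
      refine ⟨fun h => ?_, hne, fun h => ?_⟩
      · exact hd (P.fst_mem_support_of_mem_edges h) Q.end_mem_support
      · exact hd P.start_mem_support (Q.snd_mem_support_of_mem_edges h)
  · rw [sgn_cons, sgn_append, sgn_cons]
    ring

theorem avoid (hK : ∀ x y : V, x ≠ y → 7 ≤ (G.commonNeighbors x y).ncard) (x y : V) (hxy : x ≠ y)
    (S : Finset V) (hS : S.card ≤ 6) : ∃ z, G.Adj x z ∧ G.Adj z y ∧ z ∉ S := by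
  by_contra hcon
  push Not at hcon
  have hsub : G.commonNeighbors x y ⊆ (S : Set V) := by
    intro z hz
    rw [mem_commonNeighbors] at hz
    exact hcon z hz.1 hz.2.symm
  have h1 := Set.ncard_le_ncard hsub (Finset.finite_toSet S)
  rw [Set.ncard_coe_finset] at h1
  have := hK x y hxy
  omega

theorem part [DecidableEq V] (hK : ∀ x y : V, x ≠ y → 7 ≤ (G.commonNeighbors x y).ncard) (b c : V)
    (hbc : b ≠ c) (B : Finset V) (hB : B.card ≤ 2) (hbB : b ∉ B) (hcB : c ∉ B) (p0 : ZMod 2)
    (hp : ∀ P : G.Walk b c, P.IsPath → (∀ z ∈ B, z ∉ P.support) → P.length ≤ 5 →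
      sgn σ P = p0) :
    ∃ s : V → ZMod 2, s b = 0 ∧ s c = p0 ∧
      ∀ x y, x ∉ B → y ∉ B → G.Adj x y → σ s(x, y) = s x + s y := by
  -- paths
  have p1 : G.Adj b c → σ s(b, c) = p0 := by
    intro h
    have := hp (Walk.cons h Walk.nil) (by simp [hbc]) (by
      intro z hz; simp only [Walk.support_cons, Walk.support_nil, List.mem_cons, List.not_mem_nil,
        or_false, not_or]
      exact ⟨fun h => hbB (h ▸ hz), fun h => hcB (h ▸ hz)⟩) (by simp)
    simpa [sgn] using this
  have p2 : ∀ x, x ∉ B → G.Adj b x → G.Adj x c → σ s(b, x) + σ s(x, c) = p0 := by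
    intro x hx h1 h2
    have := hp (Walk.cons h1 (Walk.cons h2 Walk.nil)) (by
      simp [hbc, h1.ne, h2.ne]) (by
      intro z hz; simp only [Walk.support_cons, Walk.support_nil, List.mem_cons, List.not_mem_nil,
        or_false, not_or]
      exact ⟨fun h => hbB (h ▸ hz), fun h => hx (h ▸ hz), fun h => hcB (h ▸ hz)⟩) (by simp)
    simpa [sgn] using this
  have p3 : ∀ x y, x ∉ B → y ∉ B → x ≠ c → y ≠ b → G.Adj b x → G.Adj x y → G.Adj y c →
      σ s(b, x) + (σ s(x, y) + σ s(y, c)) = p0 := by
    intro x y hx hy hxc hyb h1 h2 h3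
    have := hp (Walk.cons h1 (Walk.cons h2 (Walk.cons h3 Walk.nil))) (by
      simp [hbc, h1.ne, h2.ne, h3.ne, hxc, hyb.symm]) (by
      intro z hz; simp only [Walk.support_cons, Walk.support_nil, List.mem_cons, List.not_mem_nil,
        or_false, not_or]
      exact ⟨fun h => hbB (h ▸ hz), fun h => hx (h ▸ hz), fun h => hy (h ▸ hz),
        fun h => hcB (h ▸ hz)⟩) (by simp)
    simpa [sgn] using this
  have p4 : ∀ x y t, x ∉ B → y ∉ B → t ∉ B → x ≠ c → x ≠ t → y ≠ b → y ≠ c → t ≠ b →
      G.Adj b x → G.Adj x y → G.Adj y t → G.Adj t c →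
      σ s(b, x) + (σ s(x, y) + (σ s(y, t) + σ s(t, c))) = p0 := by
    intro x y t hx hy ht hxc hxt hyb hyc htb h1 h2 h3 h4
    have := hp (Walk.cons h1 (Walk.cons h2 (Walk.cons h3 (Walk.cons h4 Walk.nil)))) (by
      simp [hbc, h1.ne, h2.ne, h3.ne, h4.ne, hxc, hxt, hyb.symm, hyc, htb.symm]) (by
      intro z hz; simp only [Walk.support_cons, Walk.support_nil, List.mem_cons, List.not_mem_nil,
        or_false, not_or]
      exact ⟨fun h => hbB (h ▸ hz), fun h => hx (h ▸ hz), fun h => hy (h ▸ hz),
        fun h => ht (h ▸ hz), fun h => hcB (h ▸ hz)⟩) (by simp)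
    simpa [sgn] using this
  have p5 : ∀ x y t r, x ∉ B → y ∉ B → t ∉ B → r ∉ B → x ≠ c → x ≠ t → x ≠ r → y ≠ b → y ≠ c →
      y ≠ r → t ≠ b → t ≠ c → r ≠ b →
      G.Adj b x → G.Adj x y → G.Adj y t → G.Adj t r → G.Adj r c →
      σ s(b, x) + (σ s(x, y) + (σ s(y, t) + (σ s(t, r) + σ s(r, c)))) = p0 := by
    intro x y t r hx hy ht hr hxc hxt hxr hyb hyc hyr htb htc hrb h1 h2 h3 h4 h5
    have := hp (Walk.cons h1 (Walk.cons h2 (Walk.cons h3 (Walk.cons h4 (Walk.cons h5 Walk.nil)))))
      (by simp [hbc, h1.ne, h2.ne, h3.ne, h4.ne, h5.ne, hxc, hxt, hxr, hyb.symm, hyc, hyr, htb.symm,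
        htc, hrb.symm]) (by
      intro z hz; simp only [Walk.support_cons, Walk.support_nil, List.mem_cons, List.not_mem_nil,
        or_false, not_or]
      exact ⟨fun h => hbB (h ▸ hz), fun h => hx (h ▸ hz), fun h => hy (h ▸ hz),
        fun h => ht (h ▸ hz), fun h => hr (h ▸ hz), fun h => hcB (h ▸ hz)⟩) (by simp)
    simpa [sgn] using this
  -- choice of w
  have hw : ∀ x, ∃ w, x ≠ b → G.Adj b w ∧ G.Adj w x ∧ w ∉ B ∧ w ≠ c := by
    intro x
    by_cases hx : x = b
    · exact ⟨b, fun h => absurd hx h⟩
    · obtain ⟨w, h1, h2, h3⟩ := avoid hK b x (Ne.symm hx) (insert c B)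
        ((Finset.card_insert_le _ _).trans (by omega))
      rw [Finset.mem_insert, not_or] at h3
      exact ⟨w, fun _ => ⟨h1, h2, h3.2, h3.1⟩⟩
  choose w hw using hw
  -- claims
  have c3 : ∀ x t, x ∉ B → x ≠ b → x ≠ c → t ∉ B → t ≠ b → G.Adj x t → G.Adj t c →
      σ s(x, t) + σ s(t, c) = p0 + (σ s(b, w x) + σ s(w x, x)) := by
    intro x t hx hxb hxc ht htb h1 h2
    obtain ⟨hw1, hw2, hw3, hw4⟩ := hw x hxb
    -- an auxiliary vertex w'' different from t
    obtain ⟨w', h1', h2', h3'⟩ := avoid hK b x (Ne.symm hxb) (insert t (insert c B))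
        ((Finset.card_insert_le _ _).trans (by
          have := Finset.card_insert_le c B; omega))
    simp only [Finset.mem_insert, not_or] at h3'
    -- a vertex z different from w x, w'
    obtain ⟨z, g1, g2, g3⟩ := avoid hK x c hxc (insert (w x) (insert w' (insert b B)))
        ((Finset.card_insert_le _ _).trans (by
          have := Finset.card_insert_le w' (insert b B)
          have := Finset.card_insert_le b B; omega))
    simp only [Finset.mem_insert, not_or] at g3
    have e1 := p4 w' x t h3'.2.2 hx ht h3'.2.1 h3'.1 hxb hxc htb h1' h2' h1 h2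
    have e2 := p4 w' x z h3'.2.2 hx g3.2.2.2 h3'.2.1 (Ne.symm g3.2.1) hxb hxc g3.2.2.1 h1' h2' g1 g2
    have e3 := p4 (w x) x z hw3 hx g3.2.2.2 hw4 (Ne.symm g3.1) hxb hxc g3.2.2.1 hw1 hw2 g1 g2
    have f1 : ∀ A B C D E p : ZMod 2, A + (B + E) = p → A + (B + D) = p → C + D = p →
        E = p + C := by decide
    exact f1 (σ s(b, w')) (σ s(w', x)) (σ s(b, w x) + σ s(w x, x)) (σ s(x, z) + σ s(z, c)) _ _ e1 e2
      (by rw [← e3]; ring)
  have c2 : ∀ x w', x ∉ B → x ≠ b → x ≠ c → w' ∉ B → w' ≠ c → G.Adj b w' → G.Adj w' x →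
      σ s(b, w') + σ s(w', x) = σ s(b, w x) + σ s(w x, x) := by
    intro x w' hx hxb hxc hw' hwc h1 h2
    obtain ⟨z, g1, g2, g3⟩ := avoid hK x c hxc (insert w' (insert b B))
        ((Finset.card_insert_le _ _).trans (by
          have := Finset.card_insert_le b B; omega))
    simp only [Finset.mem_insert, not_or] at g3
    have e1 := p4 w' x z hw' hx g3.2.2 hwc (Ne.symm g3.1) hxb hxc g3.2.1 h1 h2 g1 g2
    have e2 := c3 x z hx hxb hxc g3.2.2 g3.2.1 g1 g2
    have f1 : ∀ A B C D p : ZMod 2, A + (B + D) = p → D = p + C → A + B = C := by decide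
    exact f1 _ _ _ _ _ e1 e2
  have c4 : ∀ x y, x ∉ B → x ≠ b → x ≠ c → y ∉ B → y ≠ b → y ≠ c → G.Adj x y →
      σ s(x, y) = (σ s(b, w x) + σ s(w x, x)) + (σ s(b, w y) + σ s(w y, y)) := by
    intro x y hx hxb hxc hy hyb hyc hxy
    obtain ⟨w', h1', h2', h3'⟩ := avoid hK b x (Ne.symm hxb) (insert y (insert c B))
        ((Finset.card_insert_le _ _).trans (by
          have := Finset.card_insert_le c B; omega))
    simp only [Finset.mem_insert, not_or] at h3'
    obtain ⟨z, g1, g2, g3⟩ := avoid hK y c hyc (insert x (insert w' (insert b B)))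
        ((Finset.card_insert_le _ _).trans (by
          have := Finset.card_insert_le w' (insert b B)
          have := Finset.card_insert_le b B; omega))
    simp only [Finset.mem_insert, not_or] at g3
    have e1 := p5 w' x y z h3'.2.2 hx hy g3.2.2.2 h3'.2.1 h3'.1 (Ne.symm g3.2.1) hxb hxc
      (Ne.symm g3.1) hyb hyc g3.2.2.1 h1' h2' hxy g1 g2
    have e2 := c2 x w' hx hxb hxc h3'.2.2 h3'.2.1 h1' h2'
    have e3 := c3 y z hy hyb hyc g3.2.2.2 g3.2.2.1 g1 g2
    have f1 : ∀ A B C D E X Y p : ZMod 2, A + (B + (C + (D + E))) = p → A + B = X →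
        D + E = p + Y → C = X + Y := by decide
    exact f1 _ _ _ _ _ _ _ _ e1 e2 e3
  have c5 : ∀ x, x ∉ B → x ≠ b → x ≠ c → G.Adj b x →
      σ s(b, x) = σ s(b, w x) + σ s(w x, x) := by
    intro x hx hxb hxc hbx
    obtain ⟨z, g1, g2, g3⟩ := avoid hK x c hxc (insert b B)
        ((Finset.card_insert_le _ _).trans (by omega))
    simp only [Finset.mem_insert, not_or] at g3
    have e1 := p3 x z hx g3.2 hxc g3.1 hbx g1 g2
    have e2 := c3 x z hx hxb hxc g3.2 g3.1 g1 g2
    have f1 : ∀ A D C p : ZMod 2, A + D = p → D = p + C → A = C := by decide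
    exact f1 _ _ _ _ e1 e2
  have c6 : ∀ x, x ∉ B → x ≠ b → x ≠ c → G.Adj x c →
      σ s(x, c) = (σ s(b, w x) + σ s(w x, x)) + p0 := by
    intro x hx hxb hxc hxc'
    obtain ⟨hw1, hw2, hw3, hw4⟩ := hw x hxb
    have e1 := p3 (w x) x hw3 hx hw4 hxb hw1 hw2 hxc'
    have f1 : ∀ A B C p : ZMod 2, A + (B + C) = p → C = A + B + p := by decide
    exact f1 _ _ _ _ e1
  refine ⟨fun x => if x = b then 0 else if x = c then p0 else σ s(b, w x) + σ s(w x, x), by simp,
    by simp [hbc.symm], ?_⟩
  intro x y hx hy hxy
  by_cases hxb : x = b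
  · subst hxb
    have hyb : y ≠ x := hxy.ne'
    by_cases hyc : y = c
    · subst hyc
      simp only [if_true, if_neg hyb, zero_add]
      exact p1 hxy
    · simp only [if_true, if_neg hyb, if_neg hyc, zero_add]
      exact c5 y hy hyb hyc hxy
  · by_cases hxc : x = c
    · subst hxc
      by_cases hyb : y = b
      · subst hyb
        simp only [if_true, if_neg hxb, add_zero]
        rw [Sym2.eq_swap]
        exact p1 hxy.symm
      · have hyx : y ≠ x := hxy.ne'
        simp only [if_true, if_neg hxb, if_neg hyb, if_neg hyx]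
        rw [Sym2.eq_swap, c6 y hy hyb hyx hxy.symm, add_comm]
    · by_cases hyb : y = b
      · subst hyb
        simp only [if_true, if_neg hxb, if_neg hxc, add_zero]
        rw [Sym2.eq_swap]
        exact c5 x hx hxb hxc hxy.symm
      · by_cases hyc : y = c
        · subst hyc
          simp only [if_true, if_neg hxb, if_neg hxc, if_neg hyb]
          exact c6 x hx hxb hxc hxy
        · simp only [if_neg hxb, if_neg hxc, if_neg hyb, if_neg hyc]
          exact c4 x y hx hxb hxc hy hyb hyc hxy

/-- paths of two vertices length -/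
theorem path2 {b c w : V} (h1 : G.Adj b w) (h2 : G.Adj w c) (hbc : b ≠ c) :
    (Walk.cons h1 (Walk.cons h2 Walk.nil) : G.Walk b c).IsPath := by
  simp [hbc, h1.ne, h2.ne]

theorem consts [DecidableEq V] (hK : ∀ x y : V, x ≠ y → 7 ≤ (G.commonNeighbors x y).ncard)
    (a b c d : V) (hbc : b ≠ c) (had : a ≠ d) (hab : a ≠ b) (hac : a ≠ c) (hbd : b ≠ d)
    (hcd : c ≠ d) (k : ZMod 2)
    (h : ∀ (P : G.Walk b c) (Q : G.Walk d a), P.IsPath → Q.IsPath →
      List.Disjoint P.support Q.support → sgn σ P + sgn σ Q = k) :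
    ∃ p0 q0 : ZMod 2, p0 + q0 = k ∧
      (∀ P : G.Walk b c, P.IsPath → (∀ z ∈ ({a, d} : Finset V), z ∉ P.support) → P.length ≤ 5 →
        sgn σ P = p0) ∧
      (∀ Q : G.Walk d a, Q.IsPath → (∀ z ∈ ({b, c} : Finset V), z ∉ Q.support) → Q.length ≤ 5 →
        sgn σ Q = q0) := by
  obtain ⟨w0, h1, h2, h3⟩ := avoid hK d a had.symm {b, c}
    ((Finset.card_insert_le _ _).trans (by simp))
  simp only [Finset.mem_insert, Finset.mem_singleton, not_or] at h3
  set q0 : ZMod 2 := σ s(d, w0) + σ s(w0, a) with hq0
  have hlen : ∀ {x y : V} (P : G.Walk x y), P.length ≤ 5 → P.support.toFinset.card ≤ 6 := by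
    intro x y P hP
    have := P.support.toFinset_card_le
    rw [Walk.length_support] at this
    omega
  have sg2 : ∀ {x y z : V} (g1 : G.Adj x y) (g2 : G.Adj y z),
      sgn σ (Walk.cons g1 (Walk.cons g2 Walk.nil)) = σ s(x, y) + σ s(y, z) := by
    intro x y z g1 g2
    simp [sgn]
  -- all the two-step paths from d to a have the same sign
  have hq : ∀ w', G.Adj d w' → G.Adj w' a → w' ≠ b → w' ≠ c →
      σ s(d, w') + σ s(w', a) = q0 := by
    intro w' g1 g2 g3 g4
    obtain ⟨z, k1, k2, k3⟩ := avoid hK b c hbc {a, d, w', w0} (by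
      have := Finset.card_le_four (a := a) (b := d) (c := w') (d := w0)
      omega)
    simp only [Finset.mem_insert, Finset.mem_singleton, not_or] at k3
    have e1 := h (Walk.cons k1 (Walk.cons k2 Walk.nil)) (Walk.cons g1 (Walk.cons g2 Walk.nil))
      (path2 k1 k2 hbc) (path2 g1 g2 had.symm) (by
        intro x hx hx'
        simp only [Walk.support_cons, Walk.support_nil, List.mem_cons, List.not_mem_nil,
          or_false] at hx hx'
        rcases hx with rfl | rfl | rfl <;> rcases hx' with h | h | h
        · exact hbd h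
        · exact g3 h.symm
        · exact hab h.symm
        · exact k3.2.1 h
        · exact k3.2.2.1 h
        · exact k3.1 h
        · exact hcd h
        · exact g4 h.symm
        · exact hac h.symm)
    have e2 := h (Walk.cons k1 (Walk.cons k2 Walk.nil)) (Walk.cons h1 (Walk.cons h2 Walk.nil))
      (path2 k1 k2 hbc) (path2 h1 h2 had.symm) (by
        intro x hx hx'
        simp only [Walk.support_cons, Walk.support_nil, List.mem_cons, List.not_mem_nil,
          or_false] at hx hx'
        rcases hx with rfl | rfl | rfl <;> rcases hx' with h | h | h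
        · exact hbd h
        · exact h3.1 h.symm
        · exact hab h.symm
        · exact k3.2.1 h
        · exact k3.2.2.2 h
        · exact k3.1 h
        · exact hcd h
        · exact h3.2 h.symm
        · exact hac h.symm)
    rw [sg2, sg2] at e1 e2
    exact add_left_cancel (e1.trans e2.symm)
  have hp : ∀ P : G.Walk b c, P.IsPath → (∀ z ∈ ({a, d} : Finset V), z ∉ P.support) →
      P.length ≤ 5 → sgn σ P = k + q0 := by
    intro P hP hz hl
    obtain ⟨w', g1, g2, g3⟩ := avoid hK d a had.symm P.support.toFinset (hlen P hl)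
    rw [List.mem_toFinset] at g3
    have hb : w' ≠ b := fun h => g3 (h ▸ P.start_mem_support)
    have hc : w' ≠ c := fun h => g3 (h ▸ P.end_mem_support)
    have e1 := h P (Walk.cons g1 (Walk.cons g2 Walk.nil)) hP (path2 g1 g2 had.symm) (by
      intro x hx hx'
      simp only [Walk.support_cons, Walk.support_nil, List.mem_cons, List.not_mem_nil,
        or_false] at hx'
      rcases hx' with rfl | rfl | rfl
      · exact hz _ (by simp) hx
      · exact g3 hx
      · exact hz _ (by simp) hx)
    rw [sg2, hq w' g1 g2 hb hc] at e1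
    have : q0 + q0 = 0 := CharTwo.add_self_eq_zero _
    linear_combination e1 - this
  refine ⟨k + q0, q0, ?_, hp, ?_⟩
  · have : q0 + q0 = 0 := CharTwo.add_self_eq_zero _
    linear_combination this
  · intro Q hQ hz hl
    obtain ⟨z, g1, g2, g3⟩ := avoid hK b c hbc Q.support.toFinset (hlen Q hl)
    rw [List.mem_toFinset] at g3
    have ha : z ≠ a := fun h => g3 (h ▸ Q.end_mem_support)
    have hd : z ≠ d := fun h => g3 (h ▸ Q.start_mem_support)
    have e1 := h (Walk.cons g1 (Walk.cons g2 Walk.nil)) Q (path2 g1 g2 hbc) hQ (by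
      intro x hx hx'
      simp only [Walk.support_cons, Walk.support_nil, List.mem_cons, List.not_mem_nil,
        or_false] at hx
      rcases hx with rfl | rfl | rfl
      · exact hz _ (by simp) hx'
      · exact g3 hx'
      · exact hz _ (by simp) hx')
    have e2 := hp (Walk.cons g1 (Walk.cons g2 Walk.nil)) (path2 g1 g2 hbc) (by
      intro x hx hx'
      simp only [Walk.support_cons, Walk.support_nil, List.mem_cons, List.not_mem_nil,
        or_false] at hx'
      simp only [Finset.mem_insert, Finset.mem_singleton] at hx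
      rcases hx with rfl | rfl <;> rcases hx' with h | h | h
      · exact hab h
      · exact ha h.symm
      · exact hac h
      · exact hbd h.symm
      · exact hd h.symm
      · exact hcd h.symm) (by simp)
    rw [e2] at e1
    have f : ∀ k q X : ZMod 2, k + q + X = k → X = q := by decide
    exact f _ _ _ e1

theorem disjoint_case [DecidableEq V] (hK : ∀ x y : V, x ≠ y → 7 ≤ (G.commonNeighbors x y).ncard)
    (a b c d : V) (hab : G.Adj a b) (hcd : G.Adj c d) (hbc : b ≠ c) (had : a ≠ d) (hac : a ≠ c)
    (hbd : b ≠ d)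
    (hno : ∀ w : G.Walk a a, w.IsCycle → s(a, b) ∈ w.edges → s(c, d) ∈ w.edges → sgn σ w = 0) :
    BalancedOff G σ {s(a, b), s(c, d)} := by
  set k : ZMod 2 := σ s(a, b) + σ s(c, d) with hk
  have hne : s(a, b) ≠ s(c, d) := by
    intro h
    rw [Sym2.eq_iff] at h
    rcases h with ⟨h, _⟩ | ⟨h, _⟩
    · exact hac h
    · exact had h
  have z2 : ∀ x y : ZMod 2, x + y = 0 → y = x := by decide
  have H1 : ∀ (P : G.Walk b c) (Q : G.Walk d a), P.IsPath → Q.IsPath →
      List.Disjoint P.support Q.support → sgn σ P + sgn σ Q = k := by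
    intro P Q hP hQ hd
    obtain ⟨w, w1, w2, w3, w4⟩ := circ σ hab hcd hne P Q hP hQ hd
    rw [hno w w1 w2 w3] at w4
    exact z2 _ _ w4.symm
  have hne' : s(a, b) ≠ s(d, c) := by rw [Sym2.eq_swap (a := d)]; exact hne
  have H2 : ∀ (P : G.Walk b d) (Q : G.Walk c a), P.IsPath → Q.IsPath →
      List.Disjoint P.support Q.support → sgn σ P + sgn σ Q = k := by
    intro P Q hP hQ hd
    obtain ⟨w, w1, w2, w3, w4⟩ := circ σ hab hcd.symm hne' P Q hP hQ hd
    rw [hno w w1 w2 (by rw [Sym2.eq_swap]; exact w3)] at w4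
    rw [Sym2.eq_swap (a := d)] at w4
    exact z2 _ _ w4.symm
  obtain ⟨p0, q0, hk0, hp0, hq0⟩ := consts σ hK a b c d hbc had hab.ne hac hbd hcd.ne k H1
  obtain ⟨p1, q1, hk1, hp1, hq1⟩ := consts σ hK a b d c hbd hac hab.ne had hbc hcd.ne' k H2
  have card2 : ∀ x y : V, ({x, y} : Finset V).card ≤ 2 := fun x y => Finset.card_le_two
  obtain ⟨s1, s1b, s1c, s1h⟩ := part σ hK b c hbc {a, d} (card2 _ _) (by
    simp [hab.ne', hbd]) (by simp [hac.symm, hcd.ne]) p0 hp0
  obtain ⟨s2, s2b, s2d, s2h⟩ := part σ hK b d hbd {a, c} (card2 _ _) (by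
    simp [hab.ne', hbc]) (by simp [had.symm, hcd.ne']) p1 hp1
  obtain ⟨s3, s3c, s3a, s3h⟩ := part σ hK c a hac.symm {b, d} (card2 _ _) (by
    simp [hbc.symm, hcd.ne]) (by simp [hab.ne, had]) q1 hq1
  have cmp2 : ∀ x, x ≠ a → x ≠ c → x ≠ d → s2 x = s1 x := by
    intro x hxa hxc hxd
    by_cases hxb : x = b
    · rw [hxb, s1b, s2b]
    · obtain ⟨w, g1, g2, g3⟩ := avoid hK b x (Ne.symm hxb) {a, c, d} (by
        have := Finset.card_le_three (a := a) (b := c) (c := d)
        omega)
      simp only [Finset.mem_insert, Finset.mem_singleton, not_or] at g3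
      have e1 := s1h b w (by simp [hab.ne', hbd]) (by simp [g3]) g1
      have e2 := s1h w x (by simp [g3]) (by simp [hxa, hxd]) g2
      have e3 := s2h b w (by simp [hab.ne', hbc]) (by simp [g3]) g1
      have e4 := s2h w x (by simp [g3]) (by simp [hxa, hxc]) g2
      rw [s1b] at e1
      rw [s2b] at e3
      have f : ∀ A B W X C D : ZMod 2, A = 0 + W → B = W + X → A = 0 + C → B = C + D → D = X := by
        decide
      exact f _ _ _ _ _ _ e1 e2 e3 e4
  have cmp3 : ∀ x, x ≠ a → x ≠ b → x ≠ d → s3 x = s1 x + p0 := by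
    intro x hxa hxb hxd
    have pp : p0 + p0 = 0 := CharTwo.add_self_eq_zero _
    by_cases hxc : x = c
    · rw [hxc, s1c, s3c, pp]
    · obtain ⟨w, g1, g2, g3⟩ := avoid hK c x (Ne.symm hxc) {a, b, d} (by
        have := Finset.card_le_three (a := a) (b := b) (c := d)
        omega)
      simp only [Finset.mem_insert, Finset.mem_singleton, not_or] at g3
      have e1 := s1h c w (by simp [hac.symm, hcd.ne]) (by simp [g3]) g1
      have e2 := s1h w x (by simp [g3]) (by simp [hxa, hxd]) g2
      have e3 := s3h c w (by simp [hbc.symm, hcd.ne]) (by simp [g3]) g1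
      have e4 := s3h w x (by simp [g3]) (by simp [hxb, hxd]) g2
      rw [s1c] at e1
      rw [s3c] at e3
      have f : ∀ p A B C D W X : ZMod 2, A = p + W → B = W + X → A = 0 + C → B = C + D →
          D = X + p := by decide
      exact f _ _ _ _ _ _ _ e1 e2 e3 e4
  -- the potential
  let s : V → ZMod 2 := fun x => if x = a then q1 + p0 else if x = d then p1 else s1 x
  have sa : s a = q1 + p0 := by simp [s]
  have sd : s d = p1 := by simp [s, had.symm]
  have so : ∀ x, x ≠ a → x ≠ d → s x = s1 x := by
    intro x h1 h2; simp [s, h1, h2]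
  -- edges at a
  have ea : ∀ y, G.Adj a y → y ≠ b → σ s(a, y) = s a + s y := by
    intro y hy hyb
    rw [sa]
    by_cases hyd : y = d
    · rw [hyd, sd]
      have hda : G.Adj d a := by rw [hyd] at hy; exact hy.symm
      have e1 := hq0 (Walk.cons hda Walk.nil) (by simp [had.symm]) (by
        intro z hz
        simp only [Finset.mem_insert, Finset.mem_singleton] at hz
        simp only [Walk.support_cons, Walk.support_nil, List.mem_cons, List.not_mem_nil, or_false,
          not_or]
        rcases hz with rfl | rfl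
        · exact ⟨hbd, hab.ne'⟩
        · exact ⟨hcd.ne, hac.symm⟩) (by simp)
      have e2 : σ s(d, a) = q0 := by simpa [sgn] using e1
      rw [Sym2.eq_swap, e2]
      have f : ∀ A B C D k : ZMod 2, A + B = k → C + D = k → B = D + A + C := by decide
      exact f _ _ _ _ _ hk0 hk1
    · rw [so y hy.ne' hyd]
      have e1 := s3h a y (by simp [hab.ne, had]) (by simp [hyb, hyd]) hy
      rw [s3a, cmp3 y hy.ne' hyb hyd] at e1
      rw [e1]; ring
  have ed : ∀ y, G.Adj d y → y ≠ a → y ≠ c → σ s(d, y) = s d + s y := by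
    intro y hy hya hyc
    rw [sd, so y hya hy.ne']
    have e1 := s2h d y (by simp [had.symm, hcd.ne']) (by simp [hya, hyc]) hy
    rw [s2d, cmp2 y hya hyc hy.ne'] at e1
    exact e1
  apply balancedOff_of_potential σ _ s
  intro x y hxy hF
  rw [cob_mk]
  simp only [Set.mem_insert_iff, Set.mem_singleton_iff, not_or] at hF
  by_cases hxa : x = a
  · subst hxa
    apply ea y hxy
    rintro rfl
    exact hF.1 rfl
  · by_cases hya : y = a
    · subst hya
      rw [Sym2.eq_swap, add_comm]
      apply ea x hxy.symm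
      rintro rfl
      exact hF.1 Sym2.eq_swap
    · by_cases hxd : x = d
      · subst hxd
        apply ed y hxy hya
        rintro rfl
        exact hF.2 Sym2.eq_swap
      · by_cases hyd : y = d
        · subst hyd
          rw [Sym2.eq_swap, add_comm]
          apply ed x hxy.symm hxa
          rintro rfl
          exact hF.2 rfl
        · rw [so x hxa hxd, so y hya hyd]
          exact s1h x y (by simp [hxa, hxd]) (by simp [hya, hyd]) hxy

theorem adjacent_case [DecidableEq V] (hK : ∀ x y : V, x ≠ y → 7 ≤ (G.commonNeighbors x y).ncard)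
    (v a b : V) (hva : G.Adj v a) (hvb : G.Adj v b) (hab : a ≠ b)
    (hno : ∀ w : G.Walk v v, w.IsCycle → s(v, a) ∈ w.edges → s(b, v) ∈ w.edges → sgn σ w = 0) :
    BalancedOffVertex G σ v := by
  have hne : s(v, a) ≠ s(b, v) := by
    intro h
    rw [Sym2.eq_iff] at h
    rcases h with ⟨h, _⟩ | ⟨_, h⟩
    · exact hvb.ne h
    · exact hab h
  obtain ⟨s, _, _, hs⟩ := part σ hK a b hab {v} (by simp) (by simp [hva.ne']) (by simp [hvb.ne'])
    (σ s(v, a) + σ s(b, v)) (by
      intro P hP hv _
      have hv' : v ∉ P.support := hv v (by simp)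
      obtain ⟨w, w1, w2, w3, w4⟩ := circ σ hva hvb.symm hne P (Walk.nil : G.Walk v v) hP (by simp) (by
        intro x hx hx'
        simp only [Walk.support_nil, List.mem_cons, List.not_mem_nil, or_false] at hx'
        exact hv' (hx' ▸ hx))
      rw [hno w w1 w2 w3, sgn_nil, add_zero] at w4
      have z2 : ∀ x y : ZMod 2, 0 = x + y → y = x := by decide
      exact z2 _ _ w4)
  apply off_vertex_of_off_edges σ v {g | v ∈ g} (fun g hg => hg)
  apply balancedOff_of_potential σ _ s
  intro x y hxy hF
  rw [cob_mk]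
  simp only [Set.mem_setOf_eq, Sym2.mem_iff, not_or] at hF
  exact hs x y (by simp [Ne.symm hF.1]) (by simp [Ne.symm hF.2]) hxy

theorem dense (hK : ∀ x y : V, x ≠ y → 7 ≤ (G.commonNeighbors x y).ncard) [Nontrivial V] :
    NegPair G σ ↔ (∀ v, ¬ BalancedOffVertex G σ v) ∧
      ∀ e ∈ G.edgeSet, ∀ f ∈ G.edgeSet, e ≠ f → ¬ BalancedOff G σ {e, f} := by
  classical
  constructor
  · intro hN
    have h1 : ∀ v, ¬ BalancedOffVertex G σ v := by
      intro v hv
      obtain ⟨y, hy⟩ := exists_ne v
      obtain ⟨a, ha, _, _⟩ := avoid hK v y hy.symm ∅ (by simp)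
      obtain ⟨b, hb, _, hb'⟩ := avoid hK v y hy.symm {a} (by simp)
      obtain ⟨c, hc, _, hc'⟩ := avoid hK v y hy.symm {a, b}
        ((Finset.card_insert_le _ _).trans (by simp))
      simp only [Finset.mem_insert, Finset.mem_singleton, not_or] at hb' hc'
      exact vertex_necessary σ hN v a b c ha hb hc (Ne.symm hb') (Ne.symm hc'.1) (Ne.symm hc'.2) hv
    refine ⟨h1, ?_⟩
    intro e he f hf hef hb
    have h2 : ∀ g : Sym2 V, BalancedOff G σ {g} → False := by
      intro g hg
      induction g using Sym2.ind with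
      | _ x y =>
        apply h1 x
        apply off_vertex_of_off_edges σ x {s(x, y)} _ hg
        intro g' hg'
        rw [Set.mem_singleton_iff] at hg'
        rw [hg']; simp
    rcases pair_necessary σ hN e f he hf hef hb with h | h
    · exact h2 e h
    · exact h2 f h
  · rintro ⟨hv, hE⟩ e he f hf hef
    by_contra hcon
    push Not at hcon
    have hno : ∀ (u : V) (w : G.Walk u u), w.IsCycle → e ∈ w.edges → f ∈ w.edges → sgn σ w = 0 :=
      fun u w h1 h2 h3 => zmod2_ne (hcon u w h1 h2 h3)
    induction e using Sym2.ind with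
    | _ a b =>
    induction f using Sym2.ind with
    | _ c d =>
    have hab : G.Adj a b := he
    have hcd : G.Adj c d := hf
    by_cases hac : a = c
    · subst hac
      have hbd : b ≠ d := by rintro rfl; exact hef rfl
      apply hv a
      apply adjacent_case σ hK a b d hab hcd hbd
      intro w h1 h2 h3
      exact hno a w h1 h2 (by rw [Sym2.eq_swap]; exact h3)
    · by_cases had : a = d
      · subst had
        have hbc : b ≠ c := by rintro rfl; exact hef Sym2.eq_swap
        apply hv a
        apply adjacent_case σ hK a b c hab hcd.symm hbc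
        intro w h1 h2 h3
        exact hno a w h1 h2 h3
      · by_cases hbc : b = c
        · subst hbc
          apply hv b
          apply adjacent_case σ hK b a d hab.symm hcd had
          intro w h1 h2 h3
          exact hno b w h1 (by rw [Sym2.eq_swap]; exact h2) (by rw [Sym2.eq_swap]; exact h3)
        · by_cases hbd : b = d
          · subst hbd
            apply hv b
            apply adjacent_case σ hK b a c hab.symm hcd.symm hac
            intro w h1 h2 h3
            exact hno b w h1 (by rw [Sym2.eq_swap]; exact h2) h3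
          · exact hE _ he _ hf hef (disjoint_case σ hK a b c d hab hcd hbc had hac hbd
              (fun w h1 h2 h3 => hno a w h1 h2 h3))

/-- every 3-connected graph has an unbalanced signature without the negative pair property -/
theorem threeConn_fails (hG : ThreeConn G) :
    ∃ σ : Sym2 V → ZMod 2, Unbalanced G σ ∧ ¬ NegPair G σ := by
  classical
  obtain ⟨hcard, hcon⟩ := hG
  have hfin : Finite V := Nat.finite_of_card_ne_zero (by omega)
  have hne : Nonempty V := by
    by_contra h
    rw [not_nonempty_iff] at h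
    rw [Nat.card_of_isEmpty] at hcard
    omega
  obtain ⟨v⟩ := hne
  have hdeg : 3 ≤ (G.neighborSet v).ncard := by
    by_contra hlt
    have hle : (G.neighborSet v).ncard ≤ 2 := by omega
    have hc := hcon _ hle
    have hex : ∃ y, y ∉ insert v (G.neighborSet v) := by
      by_contra hall
      push Not at hall
      have h1 : (Set.univ : Set V) ⊆ insert v (G.neighborSet v) := fun y _ => hall y
      have h2 := Set.ncard_le_ncard h1 (Set.toFinite _)
      have h3 := Set.ncard_insert_le v (G.neighborSet v)
      rw [Set.ncard_univ] at h2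
      omega
    obtain ⟨y, hy⟩ := hex
    simp only [Set.mem_insert_iff, not_or] at hy
    have hv : v ∈ (G.neighborSet v)ᶜ := by simp
    obtain ⟨p⟩ := hc.preconnected ⟨v, hv⟩ ⟨y, hy.2⟩
    cases p with
    | nil => exact hy.1 rfl
    | cons h q =>
      rename_i z
      exact z.2 h
  obtain ⟨T, hTs, hT⟩ := Set.exists_subset_card_eq hdeg
  rw [Set.ncard_eq_three] at hT
  obtain ⟨a, b, c, hab, hac, hbc, rfl⟩ := hT
  have ha : G.Adj v a := hTs (by simp)
  have hb : G.Adj v b := hTs (by simp)
  have hc : G.Adj v c := hTs (by simp)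
  let σ : Sym2 V → ZMod 2 := fun g => if g = s(a, v) then 1 else 0
  refine ⟨σ, ?_, ?_⟩
  · have h1 := hcon {v} (by simp)
    have hbv : b ∈ ({v}ᶜ : Set V) := by simpa using hb.ne'
    have hav : a ∈ ({v}ᶜ : Set V) := by simpa using ha.ne'
    obtain ⟨p0⟩ := h1.preconnected ⟨b, hbv⟩ ⟨a, hav⟩
    let p : G.Walk b a := p0.map (Embedding.induce ({v}ᶜ : Set V)).toHom
    have hp : v ∉ p.support := by
      intro h
      have : v ∈ (p0.map (Embedding.induce ({v}ᶜ : Set V)).toHom).support := h
      rw [Walk.support_map, List.mem_map] at this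
      obtain ⟨z, _, hz⟩ := this
      exact z.2 hz
    have hp' : v ∉ p.bypass.support := fun h => hp (p.support_bypass_subset_support h)
    refine ⟨a, Walk.cons ha.symm (Walk.cons hb p.bypass), ?_, ?_⟩
    · rw [Walk.cons_isCycle_iff, Walk.cons_isPath_iff]
      refine ⟨⟨p.bypass_isPath, hp'⟩, ?_⟩
      rw [Walk.edges_cons, List.mem_cons, not_or]
      constructor
      · intro h
        rw [Sym2.eq_iff] at h
        rcases h with ⟨h, _⟩ | ⟨h, _⟩
        · exact ha.ne h.symm
        · exact hab h
      · intro h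
        exact hp' (Walk.snd_mem_support_of_mem_edges _ h)
    · rw [sgn_cons, sgn_cons]
      have h2 : sgn σ p.bypass = 0 := by
        unfold sgn
        apply List.sum_eq_zero
        intro x hx
        rw [List.mem_map] at hx
        obtain ⟨g, hg, rfl⟩ := hx
        show (if g = s(a, v) then (1 : ZMod 2) else 0) = 0
        rw [if_neg]
        rintro rfl
        exact hp' (Walk.snd_mem_support_of_mem_edges _ hg)
      have h3 : σ s(a, v) = 1 := by simp [σ]
      have h4 : σ s(v, b) = 0 := by
        show (if s(v, b) = s(a, v) then (1 : ZMod 2) else 0) = 0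
        rw [if_neg]
        intro h
        rw [Sym2.eq_iff] at h
        rcases h with ⟨h, _⟩ | ⟨_, h⟩
        · exact ha.ne h
        · exact hab h.symm
      rw [h2, h3, h4]
      rfl
  · intro hN
    apply vertex_necessary σ hN v a b c ha hb hc hab hac hbc
    intro u w _ hv
    unfold sgn
    apply List.sum_eq_zero
    intro x hx
    rw [List.mem_map] at hx
    obtain ⟨g, hg, rfl⟩ := hx
    show (if g = s(a, v) then (1 : ZMod 2) else 0) = 0
    rw [if_neg]
    rintro rfl
    exact hv (Walk.snd_mem_support_of_mem_edges _ hg)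

/-- large minimum degree gives many common neighbours -/
theorem common_of_degree [Finite V] (hd : ∀ v : V, Nat.card V + 7 ≤ 2 * (G.neighborSet v).ncard)
    (x y : V) : 7 ≤ (G.commonNeighbors x y).ncard := by
  have h1 := Set.ncard_union_add_ncard_inter (G.neighborSet x) (G.neighborSet y)
    (Set.toFinite _) (Set.toFinite _)
  have h2 : (G.neighborSet x ∪ G.neighborSet y).ncard ≤ Nat.card V := by
    rw [← Set.ncard_univ]
    exact Set.ncard_le_ncard (Set.subset_univ _) (Set.toFinite _)
  have h3 := hd x
  have h4 := hd y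
  have h5 : G.commonNeighbors x y = G.neighborSet x ∩ G.neighborSet y := rfl
  rw [h5]
  omega

end

/-- **Main theorem.** -/
theorem result :
    -- necessary conditions in every signed graph with the negative pair property
    (∀ (V : Type) [Finite V] (G : SimpleGraph V) (σ : Sym2 V → ZMod 2), NegPair G σ →
      (∀ v, 3 ≤ (G.neighborSet v).ncard → ¬ BalancedOffVertex G σ v) ∧
      ∀ e ∈ G.edgeSet, ∀ f ∈ G.edgeSet, e ≠ f → BalancedOff G σ {e, f} →
        BalancedOff G σ {e} ∨ BalancedOff G σ {f}) ∧
    -- the characterization when any two vertices have at least seven common neighbours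
    (∀ (V : Type) [Finite V] [Nontrivial V] (G : SimpleGraph V) (σ : Sym2 V → ZMod 2),
      (∀ x y : V, x ≠ y → 7 ≤ (G.commonNeighbors x y).ncard) →
      (NegPair G σ ↔ (∀ v, ¬ BalancedOffVertex G σ v) ∧
        ∀ e ∈ G.edgeSet, ∀ f ∈ G.edgeSet, e ≠ f → ¬ BalancedOff G σ {e, f})) ∧
    -- in particular when all degrees are at least (n + 7) / 2
    (∀ (V : Type) [Finite V] [Nontrivial V] (G : SimpleGraph V) (σ : Sym2 V → ZMod 2),
      (∀ v : V, Nat.card V + 7 ≤ 2 * (G.neighborSet v).ncard) →
      (NegPair G σ ↔ (∀ v, ¬ BalancedOffVertex G σ v) ∧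
        ∀ e ∈ G.edgeSet, ∀ f ∈ G.edgeSet, e ≠ f → ¬ BalancedOff G σ {e, f})) ∧
    -- every 3-connected graph has an unbalanced signature without the negative pair property
    (∀ (V : Type) (G : SimpleGraph V), ThreeConn G →
      ∃ σ : Sym2 V → ZMod 2, Unbalanced G σ ∧ ¬ NegPair G σ) := by
  refine ⟨?_, ?_, ?_, ?_⟩
  · intro V _ G σ hN
    refine ⟨?_, fun e he f hf hef hb => pair_necessary σ hN e f he hf hef hb⟩
    intro v hdeg
    obtain ⟨T, hTs, hT⟩ := Set.exists_subset_card_eq hdeg
    rw [Set.ncard_eq_three] at hT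
    obtain ⟨a, b, c, hab, hac, hbc, rfl⟩ := hT
    exact vertex_necessary σ hN v a b c (hTs (by simp)) (hTs (by simp)) (hTs (by simp)) hab hac hbc
  · intro V _ _ G σ hK
    exact dense σ hK
  · intro V _ _ G σ hd
    exact dense σ (fun x y _ => common_of_degree hd x y)
  · intro V G hG
    exact threeConn_fails hG

end Pool.Agent.Results.MP_790549_co.CommonNegativeCircles
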